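import Mathlib
import Pool.Agent.Helper96.AW.GoalsB
import Pool.Agent.Helper96.AW.AQ

/-!
Project AW, packet AO: the upper bound for `t < 1`.
-/

namespace Pool.Agent.Helper63.AW.AO

open Finset Filter Topology Pool.Agent.Helper26.AF Pool.Agent.Helper26.AL Pool.Agent.Helper96.AW
  MeasureTheory

lemma int_exp {c : ℝ} (hc : 0 < c) : IntegrableOn (fun x => Real.exp (-(c * x))) (Set.Ioi 0) ∧
    ∫ x in Set.Ioi (0 : ℝ), Real.exp (-(c * x)) = 1 / c := by
  have h1 := integrableOn_exp_mul_Ioi (show -c < 0 by linarith) 0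
  have h2 := integral_exp_mul_Ioi (show -c < 0 by linarith) 0
  constructor
  · refine h1.congr_fun (fun x _ => ?_) measurableSet_Ioi
    simp
  · rw [show (fun x : ℝ => Real.exp (-(c * x))) = fun x => Real.exp (-c * x) by ext x; simp, h2]
    rw [mul_zero, Real.exp_zero]
    field_simp

lemma ww_nonneg (s : ℕ) {x : ℝ} (hx : 0 < x) : 0 ≤ ww s x := by
  unfold ww
  have : 0 ≤ Real.Gamma (3 * (s : ℝ) / 2) := Real.Gamma_nonneg_of_nonneg (by positivity)
  positivity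

lemma ee_nonneg (s : ℕ) : 0 ≤ ee s := by unfold ee; positivity

/-- The integral bound. -/
lemma intb (hAN : S_AN) {t t₁ δ' C q l : ℝ} (ht : 0 < t) (ht₁ : t₁ = (1 + δ') * t) (hδ : 0 < δ')
    (ht1 : t₁ < 1) (hl : 0 < l) {N s : ℕ}
    (hsN : s ≤ N) (hAE : ∀ x : ℝ, 0 < x →
      t ^ s * (ee s * ww s x) ≤ C * q ^ s * Real.exp ((1 + δ') * t ^ 2 * x ^ 3 / 24)) :
    ee s * ∫ x in Set.Ioi (0 : ℝ), ww s x * Real.exp (-((max (x - l) 0) ^ 3 / 6)) ≤
      (t ^ N)⁻¹ * (C * q ^ s) * Real.exp (t₁ ^ 2 * l ^ 3 / (6 * (2 - t₁) ^ 2)) *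
        (Real.exp (2 * (δ' * t ^ 2 / 24)) * (1 / (3 * (δ' * t ^ 2 / 24)))) := by
  set c : ℝ := δ' * t ^ 2 / 24 with hc
  have hc0 : 0 < c := by positivity
  have ht1' : t < 1 := by
    have : t ≤ (1 + δ') * t := by nlinarith
    linarith
  have ht₁0 : 0 < t₁ := by rw [ht₁]; positivity
  obtain ⟨hi1, hi2⟩ := int_exp (show 0 < 3 * c by positivity)
  rw [← integral_const_mul]
  have hR : (t ^ N)⁻¹ * (C * q ^ s) * Real.exp (t₁ ^ 2 * l ^ 3 / (6 * (2 - t₁) ^ 2)) *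
        (Real.exp (2 * c) * (1 / (3 * c))) =
      ∫ x in Set.Ioi (0 : ℝ), (t ^ N)⁻¹ * (C * q ^ s) *
        Real.exp (t₁ ^ 2 * l ^ 3 / (6 * (2 - t₁) ^ 2)) * Real.exp (2 * c) *
        Real.exp (-(3 * c * x)) := by
    rw [integral_const_mul, hi2]
    ring
  rw [hR]
  refine integral_mono_of_nonneg ?_ (hi1.const_mul _) ?_
  · refine (ae_restrict_iff' measurableSet_Ioi).2 (Eventually.of_forall fun x hx => ?_)
    exact mul_nonneg (ee_nonneg s) (mul_nonneg (ww_nonneg s hx) (Real.exp_nonneg _))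
  · refine (ae_restrict_iff' measurableSet_Ioi).2 (Eventually.of_forall fun x hx => ?_)
    have hx : 0 < x := hx
    have h1 := hAE x hx
    have h2 := hAN t₁ l x ht₁0 (by linarith) hl hx.le
    have hew : 0 ≤ ee s * ww s x := mul_nonneg (ee_nonneg s) (ww_nonneg s hx)
    have h3 : ee s * ww s x ≤ (t ^ N)⁻¹ * (t ^ s * (ee s * ww s x)) := by
      rw [← mul_assoc]
      refine le_mul_of_one_le_left hew ?_
      rw [inv_mul_eq_div, one_le_div (by positivity)]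
      exact pow_le_pow_of_le_one ht.le ht1'.le hsN
    have hexp : Real.exp ((1 + δ') * t ^ 2 * x ^ 3 / 24) * Real.exp (-((max (x - l) 0) ^ 3 / 6)) ≤
        Real.exp (t₁ ^ 2 * l ^ 3 / (6 * (2 - t₁) ^ 2)) * Real.exp (2 * c) *
          Real.exp (-(3 * c * x)) := by
      rw [← Real.exp_add, ← Real.exp_add, ← Real.exp_add]
      refine Real.exp_le_exp.2 ?_
      have h4 : 0 ≤ (x - 1) ^ 2 * (x + 2) := by positivity
      have h5 : c * (3 * x - 2) ≤ c * x ^ 3 := by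
        refine mul_le_mul_of_nonneg_left ?_ hc0.le
        nlinarith
      have h6 : (1 + δ') * t ^ 2 * x ^ 3 / 24 ≤ t₁ ^ 2 * x ^ 3 / 24 - c * x ^ 3 := by
        have : t₁ ^ 2 * x ^ 3 / 24 - c * x ^ 3 - (1 + δ') * t ^ 2 * x ^ 3 / 24 =
            δ' ^ 2 * t ^ 2 * x ^ 3 / 24 := by
          rw [ht₁, hc]; ring
        have h7 : 0 ≤ δ' ^ 2 * t ^ 2 * x ^ 3 / 24 := by positivity
        linarith
      linarith
    calc ee s * (ww s x * Real.exp (-((max (x - l) 0) ^ 3 / 6)))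
        = (ee s * ww s x) * Real.exp (-((max (x - l) 0) ^ 3 / 6)) := by ring
      _ ≤ ((t ^ N)⁻¹ * (C * q ^ s * Real.exp ((1 + δ') * t ^ 2 * x ^ 3 / 24))) *
          Real.exp (-((max (x - l) 0) ^ 3 / 6)) := by
          refine mul_le_mul_of_nonneg_right (h3.trans ?_) (Real.exp_nonneg _)
          exact mul_le_mul_of_nonneg_left h1 (by positivity)
      _ = (t ^ N)⁻¹ * (C * q ^ s) * (Real.exp ((1 + δ') * t ^ 2 * x ^ 3 / 24) *
          Real.exp (-((max (x - l) 0) ^ 3 / 6))) := by ring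
      _ ≤ (t ^ N)⁻¹ * (C * q ^ s) * (Real.exp (t₁ ^ 2 * l ^ 3 / (6 * (2 - t₁) ^ 2)) *
          Real.exp (2 * c) * Real.exp (-(3 * c * x))) := by
          refine mul_le_mul_of_nonneg_left hexp ?_
          have h8 : 0 ≤ C * q ^ s := by
            have h9 : 0 ≤ t ^ s * (ee s * ww s x) := by positivity
            have h10 := h9.trans h1
            exact nonneg_of_mul_nonneg_left h10 (Real.exp_pos _)
          positivity
      _ = _ := by ring

/-- The choice of `t₁`. -/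
lemma choose_t₁ {t ε : ℝ} (ht : 0 < t) (ht1 : t < 1) (hε : 0 < ε) : ∃ t₁ : ℝ, t < t₁ ∧ t₁ < 1 ∧
    3 * (2 - t) ^ 3 / t ^ 2 * (-(1 / 6) + t₁ ^ 2 / (6 * (2 - t₁) ^ 2)) ≤
      -(2 * ((1 - t) * (2 - t) / t ^ 2)) + ε / 4 := by
  have hcont : ContinuousAt (fun u : ℝ => 3 * (2 - t) ^ 3 / t ^ 2 *
      (-(1 / 6) + u ^ 2 / (6 * (2 - u) ^ 2))) t := by
    refine ContinuousAt.mul continuousAt_const (ContinuousAt.add continuousAt_const ?_)
    refine ContinuousAt.div (by fun_prop) (by fun_prop) ?_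
    have : 0 < 2 - t := by linarith
    positivity
  have hval : 3 * (2 - t) ^ 3 / t ^ 2 * (-(1 / 6) + t ^ 2 / (6 * (2 - t) ^ 2)) =
      -(2 * ((1 - t) * (2 - t) / t ^ 2)) := by
    have h2 : (2 - t) ≠ 0 := by
      have : 0 < 2 - t := by linarith
      exact this.ne'
    field_simp
    ring
  have hlt : 3 * (2 - t) ^ 3 / t ^ 2 * (-(1 / 6) + t ^ 2 / (6 * (2 - t) ^ 2)) <
      -(2 * ((1 - t) * (2 - t) / t ^ 2)) + ε / 4 := by
    rw [hval]; linarith
  have hev := hcont.eventually_lt_const hlt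
  have hev' : ∀ᶠ u in 𝓝[>] t, 3 * (2 - t) ^ 3 / t ^ 2 *
      (-(1 / 6) + u ^ 2 / (6 * (2 - u) ^ 2)) < -(2 * ((1 - t) * (2 - t) / t ^ 2)) + ε / 4 :=
    nhdsWithin_le_nhds hev
  have hI : ∀ᶠ u in 𝓝[>] t, u ∈ Set.Ioo t 1 := Ioo_mem_nhdsGT ht1
  obtain ⟨u, hu, hu1⟩ := (hev'.and hI).exists
  exact ⟨u, hu1.1, hu1.2, hu.le⟩

theorem t : S_AO := by
  intro hAN hAE hAJ t ε ht ht1 hε
  obtain ⟨C₁, hC₁, hAJ⟩ := hAJ
  obtain ⟨t₁, htt₁, ht₁1, hexpo⟩ := choose_t₁ ht ht1 hε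
  set δ' : ℝ := t₁ / t - 1 with hδ'
  have hδ'0 : 0 < δ' := by
    rw [hδ', sub_pos, one_lt_div ht]
    exact htt₁
  have ht₁e : t₁ = (1 + δ') * t := by
    rw [hδ']; field_simp; ring
  obtain ⟨C₂, q, hC₂, hq, hq1, hAE⟩ := hAE t δ' ht hδ'0
  obtain ⟨_, _, hlg, _, _, _⟩ := AQ.t
  have hlogt : Real.log t < 0 := Real.log_neg ht ht1
  set δ : ℝ := ε / (4 * (-Real.log t)) with hδ
  have hδ0 : 0 < δ := by
    rw [hδ]
    have : 0 < -Real.log t := by linarith
    positivity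
  have hδlog : δ * (-Real.log t) = ε / 4 := by
    have h0 : Real.log t ≠ 0 := hlogt.ne
    rw [hδ]
    field_simp
  have hyt : 0 < yt t := by
    unfold yt
    have : 0 < 2 - t := by linarith
    positivity
  set K : ℝ := C₂ * (Real.exp (2 * (δ' * t ^ 2 / 24)) * (1 / (3 * (δ' * t ^ 2 / 24)))) with hK
  have hK0 : 0 < K := by positivity
  have h1q : 0 < 1 - q := by linarith
  set C₃ : ℝ := C₁ * (1 + K * (1 / (1 - q))) with hC₃
  have hC₃0 : 0 < C₃ := by positivity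
  refine ⟨δ, hδ0, ⌈8 * C₃ * (1 + yt t) / ε ^ 2⌉₊ + 1, fun g hg => ?_⟩
  have hg1 : 1 ≤ g := by omega
  have hg1' : (1 : ℝ) ≤ g := by exact_mod_cast hg1
  have hglarge : 8 * C₃ * (1 + yt t) / ε ^ 2 ≤ g := by
    refine (Nat.le_ceil _).trans ?_
    exact_mod_cast (by omega : ⌈8 * C₃ * (1 + yt t) / ε ^ 2⌉₊ ≤ g)
  set l : ℝ := lg t g with hl
  have hl3 : l ^ 3 = 3 * (2 - t) ^ 3 / t ^ 2 * g := hlg t g ht
  have hl0 : 0 < l := by
    rw [hl]; unfold lg; positivity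
  have hlg' : l ≤ yt t * g := by
    rw [hl]; unfold lg
    refine mul_le_mul_of_nonneg_left ?_ hyt.le
    calc (g : ℝ) ^ ((1 : ℝ) / 3) ≤ (g : ℝ) ^ (1 : ℝ) :=
          Real.rpow_le_rpow_of_exponent_le hg1' (by norm_num)
      _ = g := Real.rpow_one _
  set N : ℕ := ⌊(2 + δ) * (g : ℝ)⌋₊ with hN
  have hNle : (N : ℝ) ≤ (2 + δ) * g := Nat.floor_le (by positivity)
  set B : ℝ := (1 + l) * Real.exp (-(l ^ 3 / 6)) with hB
  have hB0 : 0 < B := by positivity
  set E : ℝ := (t ^ N)⁻¹ * Real.exp (t₁ ^ 2 * l ^ 3 / (6 * (2 - t₁) ^ 2)) with hE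
  have ht₁0 : 0 < t₁ := by linarith
  have hE1 : 1 ≤ E := by
    rw [hE]
    refine one_le_mul_of_one_le_of_one_le ?_ ?_
    · exact (one_le_inv₀ (by positivity)).2 (pow_le_one₀ ht.le ht1.le)
    · refine Real.one_le_exp ?_
      positivity
  have hterm : ∀ s ∈ range (N + 1), ee s * PP l s ≤
      C₁ * B * E * ((if s = 0 then 1 else 0) + K * q ^ s) := by
    intro s hs
    have hsN : s ≤ N := by
      rw [Finset.mem_range] at hs; omega
    rcases Nat.eq_zero_or_pos s with h0 | h0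
    · subst h0
      have h1 := (hAJ l hl0.le).1
      have he : ee 0 = 1 := by
        unfold ee; simp
      rw [he, one_mul, if_pos rfl, pow_zero, mul_one]
      calc PP l 0 ≤ C₁ * B := h1
        _ ≤ C₁ * B * E * (1 + K) := by
          have h2 : 1 ≤ E * (1 + K) := one_le_mul_of_one_le_of_one_le hE1 (by linarith)
          calc C₁ * B = C₁ * B * 1 := by ring
            _ ≤ C₁ * B * (E * (1 + K)) := mul_le_mul_of_nonneg_left h2 (by positivity)
            _ = _ := by ring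
    · have h1 := (hAJ l hl0.le).2 s h0
      rw [if_neg (by omega), zero_add]
      have h2 := intb hAN ht ht₁e hδ'0 ht₁1 hl0 hsN (fun x hx => hAE s h0 x hx)
      calc ee s * PP l s ≤ ee s * (C₁ * (B *
            ∫ x in Set.Ioi (0 : ℝ), ww s x * Real.exp (-((max (x - l) 0) ^ 3 / 6)))) :=
            mul_le_mul_of_nonneg_left h1 (ee_nonneg s)
        _ = C₁ * B * (ee s *
            ∫ x in Set.Ioi (0 : ℝ), ww s x * Real.exp (-((max (x - l) 0) ^ 3 / 6))) := by ring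
        _ ≤ C₁ * B * ((t ^ N)⁻¹ * (C₂ * q ^ s) *
            Real.exp (t₁ ^ 2 * l ^ 3 / (6 * (2 - t₁) ^ 2)) *
            (Real.exp (2 * (δ' * t ^ 2 / 24)) * (1 / (3 * (δ' * t ^ 2 / 24))))) :=
            mul_le_mul_of_nonneg_left h2 (by positivity)
        _ = _ := by rw [hE, hK]; ring
  have hgeo : ∑ s ∈ range (N + 1), q ^ s ≤ 1 / (1 - q) := by
    have h1 : Summable (fun s : ℕ => q ^ s) := summable_geometric_of_lt_one hq.le hq1
    have h2 := h1.sum_le_tsum (range (N + 1)) (fun s _ => by positivity)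
    rw [tsum_geometric_of_lt_one hq.le hq1] at h2
    simpa using h2
  have hsum : ∑ s ∈ range (N + 1), ee s * PP l s ≤ C₃ * B * E := by
    refine (Finset.sum_le_sum hterm).trans ?_
    rw [← Finset.mul_sum, Finset.sum_add_distrib, ← Finset.mul_sum]
    have h3 : ∑ s ∈ range (N + 1), (if s = 0 then (1 : ℝ) else 0) = 1 := by
      rw [Finset.sum_ite_eq' (range (N + 1)) 0 (fun _ => (1 : ℝ))]
      simp
    rw [h3]
    have h4 : K * ∑ s ∈ range (N + 1), q ^ s ≤ K * (1 / (1 - q)) :=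
      mul_le_mul_of_nonneg_left hgeo hK0.le
    calc C₁ * B * E * (1 + K * ∑ s ∈ range (N + 1), q ^ s)
        ≤ C₁ * B * E * (1 + K * (1 / (1 - q))) := by
          refine mul_le_mul_of_nonneg_left (by linarith) (by positivity)
      _ = _ := by rw [hC₃]; ring
  refine hsum.trans ?_
  -- the factor `C₃ (1 + l)`
  have hfac : C₃ * (1 + l) ≤ Real.exp (ε * g / 2) := by
    have h1 : (ε * g / 2) ^ 2 / 2 ≤ Real.exp (ε * g / 2) := by
      have := Real.pow_div_factorial_le_exp (ε * g / 2) (by positivity) 2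
      simpa [Nat.factorial] using this
    have h2 : C₃ * (1 + l) ≤ C₃ * ((1 + yt t) * g) := by
      refine mul_le_mul_of_nonneg_left ?_ hC₃0.le
      nlinarith
    have h3 : 8 * C₃ * (1 + yt t) ≤ g * ε ^ 2 := by
      rwa [div_le_iff₀ (by positivity)] at hglarge
    have h4 : C₃ * ((1 + yt t) * g) ≤ (ε * g / 2) ^ 2 / 2 := by
      have h5 : 8 * C₃ * (1 + yt t) * g ≤ g * ε ^ 2 * g :=
        mul_le_mul_of_nonneg_right h3 (by positivity)
      nlinarith
    linarith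
  have hEexp : E = Real.exp (-(N * Real.log t) + t₁ ^ 2 * l ^ 3 / (6 * (2 - t₁) ^ 2)) := by
    rw [hE, Real.exp_add, Real.exp_neg, Real.exp_nat_mul, Real.exp_log ht]
  have e1 : C₃ * B * E = C₃ * (1 + l) * Real.exp (-(l ^ 3 / 6) + (-(N * Real.log t) +
      t₁ ^ 2 * l ^ 3 / (6 * (2 - t₁) ^ 2))) := by
    rw [hB, hEexp, Real.exp_add (-(l ^ 3 / 6))]; ring
  rw [e1]
  calc C₃ * (1 + l) * Real.exp (-(l ^ 3 / 6) + (-(N * Real.log t) +
        t₁ ^ 2 * l ^ 3 / (6 * (2 - t₁) ^ 2)))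
      ≤ Real.exp (ε * g / 2) * Real.exp (-(l ^ 3 / 6) + (-(N * Real.log t) +
        t₁ ^ 2 * l ^ 3 / (6 * (2 - t₁) ^ 2))) := mul_le_mul_of_nonneg_right hfac (Real.exp_nonneg _)
    _ = Real.exp (ε * g / 2 + (-(l ^ 3 / 6) + (-(N * Real.log t) +
        t₁ ^ 2 * l ^ 3 / (6 * (2 - t₁) ^ 2)))) := by rw [← Real.exp_add]
    _ ≤ _ := by
      refine Real.exp_le_exp.2 ?_
      have h1 : -(l ^ 3 / 6) + t₁ ^ 2 * l ^ 3 / (6 * (2 - t₁) ^ 2) =
          3 * (2 - t) ^ 3 / t ^ 2 * (-(1 / 6) + t₁ ^ 2 / (6 * (2 - t₁) ^ 2)) * g := by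
        rw [hl3]; ring
      have h2 := mul_le_mul_of_nonneg_right hexpo (by positivity : (0 : ℝ) ≤ g)
      rw [← h1] at h2
      have h3 : (N : ℝ) * (-Real.log t) ≤ (2 + δ) * g * (-Real.log t) :=
        mul_le_mul_of_nonneg_right hNle (by linarith)
      have h4 : (2 + δ) * g * (-Real.log t) = -(2 * Real.log t * g) + ε / 4 * g := by
        rw [← hδlog]; ring
      unfold It
      rw [h4] at h3
      have h5 : (g : ℝ) * (2 * (Real.log t + (1 - t) * (2 - t) / t ^ 2) - ε) =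
          2 * Real.log t * g + 2 * ((1 - t) * (2 - t) / t ^ 2) * g - ε * g := by ring
      rw [h5]
      linarith

end Pool.Agent.Helper63.AW.AO
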